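import Mathlib
import Pool.Agent.H.MP_150402_gt.Main

set_option autoImplicit false

namespace Pool.Agent.Results.MP_150402_gt.Counter

open Set TopologicalSpace

section
variable (Y Z : Type) [TopologicalSpace Y] [TopologicalSpace Z]

def OZ : Set (Set Y) := {W | ∃ (f : C(Y, Z)) (U : Set Z), IsOpen U ∧ W = f ⁻¹' U}

def ZScott (H : Set (Set Y)) : Prop :=
  (∀ W ∈ H, IsOpen W) ∧ (∀ W ∈ H, W ∈ OZ Y Z → ∀ V, IsOpen V → W ⊆ V → V ∈ H) ∧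
    ∀ 𝒞 ⊆ OZ Y Z, ⋃₀ 𝒞 ∈ H → ∃ ℱ ⊆ 𝒞, ℱ.Finite ∧ ⋃₀ ℱ ∈ H

abbrev top : TopologicalSpace C(Y, Z) :=
  generateFrom {S | ∃ H U, ZScott Y Z H ∧ IsOpen U ∧ S = {f : C(Y, Z) | f ⁻¹' U ∈ H}}

end

theorem result : ∃ (Y Z : Type) (_ : TopologicalSpace Y) (_ : TopologicalSpace Z),
    RegularSpace Z ∧ ¬ @RegularSpace C(Y, Z) (top Y Z) :=
  ⟨Pool.Agent.H.MP_150402_gt.Y, Bool, inferInstance, inferInstance, inferInstance, fun h =>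
    Pool.Agent.H.MP_150402_gt.main h⟩

end Pool.Agent.Results.MP_150402_gt.Counter
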